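import Pool.Agent.H8.EF.Alg
import Pool.Agent.H8.EF.Gen
import Pool.Agent.H8.EF.Fast
import Pool.Agent.H8.TS.Tup

/-!
# Hoffman's conjecture and Euler factors

For a set `D` of natural numbers let `PrimeTo D` be the set of the positive integers which are divisible by no
element of `D`, and consider the multiple zeta values whose summation variables are restricted to
`PrimeTo D`. If `D` is a set of primes then the value of the word of one letter `k` is
`ζ(k) ∏_{p ∈ D} (1 - p ^ (-k))`; for `D = ∅` these are the multiple zeta values.

* If `E = {e_0 < e_1 < …}` is a set of pairwise coprime integers with `liminf e_(j+1) / e_j > √2` then for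
  all but countably many subsets `D` of `E` the values of all words with letters `≥ 2`, in particular
  those of the words in `2`, `3`, are linearly independent over `ℚ`, and over any countable field of
  coefficients. Here `PrimeTo D` can be replaced by `PrimeTo (Q ∪ D)` for any set `Q` of natural numbers
  `≠ 1` which are prime to `E`.
* The same holds for every infinite set `D` of pairwise coprime integers which grows fast enough.
* The same holds for almost every set `D` of primes (each prime is chosen with probability `1/2`,
  independently), and for the sets of primes of a comeagre set.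
* For these `D` the numbers `∑ m ^ (-k)`, `m` in `PrimeTo D`, `k = 2, 3, …` are algebraically
  independent over the field of coefficients.
* For finite `D` the values of the words with letters `≥ 2` are always linearly dependent:
  the values of `[4]` and `[2, 2]` have a rational quotient. So the exceptional sets in the first three
  items are not empty, and the exceptional set in the first item is infinite.

Proof. Let `F(D)` be a combination of the values with coefficients `c`, and `k` the least letter which
is the first letter of a word with a coefficient `≠ 0`. If `D` and `D'` agree below `p` and differ at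
`p` then `F(D) - F(D')` is, up to a factor `1 + O(1/p)` and an error `O(p ^ (-k-1))`, the product of the
difference of the two sums of `m ^ (-k)`, which is of the exact order `p ^ (-k)` if the sets are sparse,
and the value of the combination given by the coefficients of the words which begin with `k`, without
this letter. By induction it is not zero for all but countably many `D`; where it is not zero the zeros
of `F` are isolated.
-/

set_option autoImplicit false

open Set Filter Topology MeasureTheory

namespace Pool.Agent.Results.MP_301213_nt.EulerFactors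

/-- The multiple zeta value over the set `A`: the sum of `∏ m_i ^ (-l_i)` over all
`m_0 > m_1 > ... > 0` in `A`. -/
noncomputable def mzv (A : Set ℕ) (l : List ℕ) : ℝ :=
  ∑' m : {m : Fin l.length → ℕ // StrictAnti m ∧ ∀ i, 0 < m i ∧ m i ∈ A},
    ∏ i, ((m.1 i : ℝ) ^ (l.get i))⁻¹

/-- The words with all letters at least two. -/
def BigWords : Set (List ℕ) := {l | ∀ a ∈ l, 2 ≤ a}

/-- The words in the letters two and three. -/
def HoffmanWords : Set (List ℕ) := {l | ∀ a ∈ l, a = 2 ∨ a = 3}

/-- The positive integers which are divisible by no element of `D`. -/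
def PrimeTo (D : Set ℕ) : Set ℕ := {m | 0 < m ∧ ∀ d ∈ D, ¬ d ∣ m}

/-- The family of the values over `A` of all words in `W` is linearly independent over `K`. -/
def Independent (K : Subfield ℂ) (W : Set (List ℕ)) (A : Set ℕ) : Prop :=
  LinearIndependent K (fun l : W => (mzv A l.1 : ℂ))

/-- The set of the primes `p` with `x p = 1`. -/
def primes (x : Nat.Primes → ZMod 2) : Set ℕ := {n | ∃ p : Nat.Primes, x p = 1 ∧ (p : ℕ) = n}

theorem hoffman_sub : HoffmanWords ⊆ BigWords := by
  intro l hl a ha
  rcases hl a ha with h | h <;> omega

theorem mzv_eq {l : List ℕ} (hl : l ∈ BigWords) (A : Set ℕ) : mzv A l = H8.TS.Z l A :=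
  (H8.TS.mzv_eq l hl A).2

theorem av_eq (D : Set ℕ) : H8.EF.av univ D = PrimeTo D := by
  ext m
  exact ⟨fun h => ⟨h.2.1, h.2.2⟩, fun h => ⟨mem_univ _, h.1, h.2⟩⟩

theorem ind_iff (K : Subfield ℂ) (D : Set ℕ) :
    Independent K BigWords (PrimeTo D) ↔ H8.EF.Ind K (H8.EF.av univ D) := by
  unfold Independent H8.EF.Ind
  rw [av_eq]
  have h : (fun l : BigWords => (mzv (PrimeTo D) l : ℂ)) =
      fun l : BigWords => (H8.TS.Z l.1 (PrimeTo D) : ℂ) :=
    funext fun l => by rw [mzv_eq l.2]
  rw [h]
  rfl

/-- **Multiple zeta values without some Euler factors.** Let `K` be a subfield of `ℂ`.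
(1) Let `K` be countable, let `e` be a strictly increasing sequence of pairwise coprime integers `≥ 2`
with `e (j + 1) ≥ ρ * e j` for all large `j`, where `ρ > √2`, and let `Q` be any set of natural numbers
`≠ 1` which are prime to all `e j`. For all but countably many sets `J` the values of all words with letters
at least two over the positive integers which are divisible by no element of `Q` and no `e j`, `j ∈ J`,
are linearly independent over `K`.
(2) Let `K` be countable. There is a function `φ` such that these values are linearly independent over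
the integers which are divisible by no element of `D`, for all infinite sets `D` of pairwise coprime
integers `≥ 2` with `φ d ≤ d'` for all elements `d < d'` of `D`.
(3) Let `K` be countable. They are linearly independent for the sets `D` of primes of a comeagre set,
and for almost every set of primes.
(4) If they are linearly independent over the integers which are divisible by no element of `D`, then
the values of the words in two and three are, no other value of a word with letters at least two is in
their span, and the sums of `m ^ (-k)` over these integers, `k = 2, 3, …`, are algebraically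
independent over `K`.
(5) For finite sets `D` of pairwise coprime integers `≥ 2` they are linearly dependent. -/
theorem result (K : Subfield ℂ) :
    (Countable K → ∀ (Q : Set ℕ) (e : ℕ → ℕ), StrictMono e → (∀ j, 2 ≤ e j) →
      (∀ i j, i ≠ j → Nat.Coprime (e i) (e j)) → (∀ q ∈ Q, q ≠ 1 ∧ ∀ j, Nat.Coprime q (e j)) →
      ∀ ρ : ℝ, √2 < ρ → (∀ᶠ j in atTop, ρ * e j ≤ e (j + 1)) →
      {J : Set ℕ | ¬ Independent K BigWords (PrimeTo (Q ∪ e '' J))}.Countable) ∧
    (Countable K → ∃ φ : ℕ → ℕ, ∀ D : Set ℕ, D.Infinite → (∀ d ∈ D, 2 ≤ d) →
      (∀ d ∈ D, ∀ d' ∈ D, d ≠ d' → Nat.Coprime d d') → (∀ d ∈ D, ∀ d' ∈ D, d < d' → φ d ≤ d') →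
      Independent K BigWords (PrimeTo D)) ∧
    (Countable K → {x | Independent K BigWords (PrimeTo (primes x))} ∈ residual (Nat.Primes → ZMod 2) ∧
      ∀ᵐ x ∂(Measure.addHaar : Measure (Nat.Primes → ZMod 2)),
        Independent K BigWords (PrimeTo (primes x))) ∧
    (∀ D : Set ℕ, Independent K BigWords (PrimeTo D) → Independent K HoffmanWords (PrimeTo D) ∧
      (∀ l ∈ BigWords, l ∉ HoffmanWords → (mzv (PrimeTo D) l : ℂ) ∉
        Submodule.span K ((fun l => (mzv (PrimeTo D) l : ℂ)) '' HoffmanWords)) ∧
      AlgebraicIndependent K (fun k : ℕ => (mzv (PrimeTo D) [k + 2] : ℂ))) ∧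
    ∀ D : Set ℕ, D.Finite → (∀ d ∈ D, 2 ≤ d) → (∀ d ∈ D, ∀ d' ∈ D, d ≠ d' → Nat.Coprime d d') →
      ¬ Independent K BigWords (PrimeTo D) := by
  refine ⟨?_, ?_, ?_, ?_, ?_⟩
  · intro hK Q e he he2 hcop hQ ρ hρ hev
    obtain ⟨J₀, hJ₀⟩ := eventually_atTop.1 hev
    have h2 : (2 : ℝ) < ρ ^ 2 := by
      have h3 : (0 : ℝ) ≤ √2 := Real.sqrt_nonneg 2
      have h4 : √2 ^ 2 = (2 : ℝ) := Real.sq_sqrt (by norm_num)
      nlinarith
    have h1 : (1 : ℝ) < ρ := by
      have h3 : (1 : ℝ) < √2 := by
        rw [Real.lt_sqrt (by norm_num)]
        norm_num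
      linarith
    have hsq : H8.EF.Seq (H8.EF.av univ Q) e ρ J₀ :=
      { sp := ⟨he, fun j => by have := he2 j; omega, h1, h2, hJ₀⟩
        two := he2
        cop := hcop
        inv := fun j m _ => H8.EF.av_mul (by have := he2 j; omega) (H8.EF.inv_univ _)
          (fun q hq => (hQ q hq).2 j) m
        ne := ⟨1, ⟨mem_univ _, Nat.one_pos, fun q hq h => (hQ q hq).1 (Nat.dvd_one.1 h)⟩,
          Nat.one_pos⟩ }
    refine (H8.EF.countable_av hsq K).mono fun J hJ => ?_
    intro h
    exact hJ ((ind_iff K _).2 (by rw [H8.EF.av_union]; exact h))
  · intro hK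
    obtain ⟨φ, hφ⟩ := H8.EF.exists_fast_ind K univ ⟨1, mem_univ _, Nat.one_pos⟩
    exact ⟨φ, fun D h1 h2 h3 h4 => (ind_iff K D).2
      (hφ D ⟨h1, h2, h3, fun d _ => H8.EF.inv_univ d, h4⟩)⟩
  · intro hK
    obtain ⟨h1, h2⟩ := H8.EF.generic_ind K
    refine ⟨mem_of_superset h1 fun x hx => (ind_iff K _).2 hx, ?_⟩
    filter_upwards [h2] with x hx
    exact (ind_iff K _).2 hx
  · intro D hA
    refine ⟨?_, ?_, ?_⟩
    · exact hA.comp (fun l : HoffmanWords => (⟨l.1, hoffman_sub l.2⟩ : BigWords))
        fun a b hab => Subtype.ext (congrArg (fun x : BigWords => x.1) hab)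
    · intro l hl hl'
      have h1 := hA.notMem_span_image (s := {x : BigWords | x.1 ∈ HoffmanWords})
        (x := (⟨l, hl⟩ : BigWords)) hl'
      have h2 : (fun l : BigWords => (mzv (PrimeTo D) l.1 : ℂ)) ''
          {x : BigWords | x.1 ∈ HoffmanWords} =
          (fun l => (mzv (PrimeTo D) l : ℂ)) '' HoffmanWords := by
        ext z
        constructor
        · rintro ⟨x, hx, rfl⟩
          exact ⟨x.1, hx, rfl⟩
        · rintro ⟨x, hx, rfl⟩
          exact ⟨⟨x, hoffman_sub hx⟩, hx, rfl⟩
      rw [h2] at h1
      exact h1
    · have h1 := H8.EF.algInd K ((ind_iff K D).1 hA)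
      have h2 : (fun k : ℕ => (mzv (PrimeTo D) [k + 2] : ℂ)) =
          fun k : ℕ => (H8.TS.P (k + 2) (H8.EF.av univ D) : ℂ) := by
        funext k
        have hbig : [k + 2] ∈ BigWords := by
          intro a ha
          simp only [List.mem_singleton] at ha
          omega
        rw [mzv_eq hbig, H8.EF.Z_single, av_eq]
      rw [h2]
      exact h1
  · intro D hD h2 h3 h
    exact H8.EF.dependent K hD ⟨h2, h3⟩ ((ind_iff K D).1 h)

end Pool.Agent.Results.MP_301213_nt.EulerFactors
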