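import Pool.Graph.R_pool_sql_team_seeded_64922ed1.Results.MP_301213_nt.HurwitzArguments
import Pool.Agent.H48.IG.GenSel

/-!
# Multiple zeta functions at the points of a large subset of every set of rational numbers of positive exponent

The multiple zeta values are the values at `z = 1` of the multiple Hurwitz zeta functions `ζ(w; z)`. Let `X` be a set of
rational numbers in an interval `[ρ, R]`, `0 < ρ`, which has, for all `T` of an infinite set `𝒯`, at least `T ^ ε` elements of
height at most `T`; for instance the numbers `1 + 1 / n`, or these numbers for the members `n` of any sequence of integers of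
positive exponent. Let `K` be a countable set of complex numbers, for instance all algebraic numbers, all multiple zeta
values and their products. We show that `X` contains an infinite set `S` such that ALL the values `ζ(w; t)`, `t ∈ S`, `w ≠ ∅`
any admissible index (in particular all Hoffman elements, with `w` a word in `2`, `3`), are linearly independent modulo the
span of `K`, over the span of `K`, in the following sense: for all finite sets `W` of indices, all `r`, all `β_1, …, β_g ∈ K`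
and all `A` there are only finitely many sets of `r` points `t_1, …, t_r` of `S` which are related, i.e. for which
`∑_j ∑_(w ∈ W) c_(j, w) ζ(w; t_j) = c_0` with coefficients of the form `∑_i k_i β_i`, where the `k_i` are integers of absolute
value at most `h ^ A`, `h` the largest of the heights of the `t_j`, and where for each `j` one of the `c_(j, w)` is not zero.

The set `S` may be prescribed to be large: if `f (T) = T ^ o(1)`, then `S` can be chosen so that it has at least `f (T)`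
elements of height at most `T` for all large `T` in `𝒯`.

Proof. The number of the exceptional points of height at most `T` of one relation with given constants is `O(T ^ ε')`,
uniformly in the constants (library, `HurwitzArguments`). The points of `S` are chosen recursively; the values at the
earlier points and their products with elements of `K` are among the constants of the next step. All sets of indices,
all `r`, `A` and all constants are taken into account, each from some step on (`Pool/Agent/H48/IG/GenSel.lean`).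
-/

set_option autoImplicit false

open NumberField Filter

namespace Pool.Agent.Results.MP_301213_nt.LargeSubsets

open HurwitzArguments (mhz Adm)

/-- The height of a rational number: the maximum of the absolute value of the numerator and of the denominator. -/
def height (x : ℚ) : ℕ := max x.num.natAbs x.den

/-- the coefficient `∑_i k_i β_i` -/
noncomputable def coef {g : ℕ} (β : Fin g → ℂ) (k : Fin g → ℤ) : ℂ := ∑ i, (k i : ℂ) * β i

/-- The points `t_1, …, t_r` are related: `∑_j ∑_(w ∈ W) c_(j, w) ζ(w; t_j) = c_0`, where all the coefficients are of the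
form `∑_i k_i β_i` with integers `k_i` of absolute value at most `N`, and for each `j` some `c_(j, w)` is not zero. -/
def Related (W : Finset (List ℕ)) {g r : ℕ} (β : Fin g → ℂ) (N : ℝ) (t : Fin r → ℚ) : Prop :=
  ∃ (c : Fin r → List ℕ → Fin g → ℤ) (c₀ : Fin g → ℤ),
    (∀ j, ∀ w ∈ W, ∀ i, |((c j w i : ℤ) : ℝ)| ≤ N) ∧ (∀ i, |((c₀ i : ℤ) : ℝ)| ≤ N) ∧
    (∀ j, ∃ w ∈ W, coef β (c j w) ≠ 0) ∧
    ∑ j, ∑ w ∈ W, coef β (c j w) * mhz w (t j) = coef β c₀

/-- the bad points for given earlier points `v` -/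
def Bad (ρ R : ℝ) (W : Finset (List ℕ)) {g r : ℕ} (β : Fin g → ℂ) (A T : ℕ) (v : Fin r → ℚ) (x : ℚ) : Prop :=
  (ρ ≤ (x : ℝ) ∧ (x : ℝ) ≤ R) ∧ ∃ (j₁ : Fin r) (c : Fin r → List ℕ → Fin g → ℤ) (c₀ : Fin g → ℤ),
    (∀ j, ∀ w ∈ W, ∀ i, |((c j w i : ℤ) : ℝ)| ≤ (T : ℝ) ^ A) ∧ (∀ i, |((c₀ i : ℤ) : ℝ)| ≤ (T : ℝ) ^ A) ∧
    (∃ w ∈ W, coef β (c j₁ w) ≠ 0) ∧
    ∑ j, ∑ w ∈ W, coef β (c j w) * mhz w ((if j = j₁ then x else v j : ℚ) : ℂ) = coef β c₀

theorem bad_count (ρ R : ℝ) (hρ : 0 < ρ) (W : Finset (List ℕ)) (hW : ∀ w ∈ W, Adm w ∧ w ≠ []) {g r : ℕ}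
    (β : Fin g → ℂ) (A : ℕ) (ε : ℝ) (hε : 0 < ε) :
    ∃ C T₀ : ℝ, ∀ T : ℕ, T₀ ≤ T → ∀ v : Fin r → ℚ, ∀ Y : Finset ℚ,
      (∀ x ∈ Y, Pool.Agent.H48.IG.height x ≤ T ∧ Bad ρ R W β A T v x) → (Y.card : ℝ) ≤ C * (T : ℝ) ^ ε := by
  classical
  set L : Set ℂ := (fun t : ℝ => (t : ℂ)) '' Set.Icc ρ R with hLdef
  have hL : IsCompact L := isCompact_Icc.image Complex.continuous_ofReal
  have hL0 : ∀ z ∈ L, ∀ n : ℕ, z ≠ -n := by
    rintro _ ⟨t, ht, rfl⟩ n hz
    have h1 : t = -(n : ℝ) := by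
      have hz' : (t : ℂ) = -(n : ℂ) := hz
      exact_mod_cast hz'
    have h2 : (0 : ℝ) ≤ n := Nat.cast_nonneg _
    have h3 := ht.1
    linarith
  obtain ⟨B, C₁, T₀, h⟩ := Pool.Agent.X142.MZ.mainX (insert [] W) (by
    intro s hs
    rcases Finset.mem_insert.1 hs with rfl | hs
    · exact ⟨by simp, by simp⟩
    · exact (hW s hs).1) L hL hL0 1 (Fintype.card (Fin g ⊕ (Fin r × W × Fin g))) A ε hε
  refine ⟨C₁, max T₀ 1, fun T hT v Y hY => ?_⟩
  have hT0 : T₀ ≤ T := (le_max_left _ _).trans hT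
  have hT1 : (1 : ℝ) ≤ T := (le_max_right _ _).trans hT
  set ξ' : (Fin g ⊕ (Fin r × W × Fin g)) → ℂ := Sum.elim β (fun q => β q.2.2 * mhz q.2.1 (v q.1)) with hξ'
  obtain ⟨X, hX, hmem⟩ := h ℚ (by simp) (algebraMap ℚ ℂ)
    (fun k => ξ' ((Fintype.equivFin (Fin g ⊕ (Fin r × W × Fin g))).symm k)) T hT0
  have hYX : Y ⊆ X := by
    intro x hx
    by_contra hxX
    obtain ⟨hht, ⟨hx1, hx2⟩, j₁, c, c₀, hc, hc₀, ⟨w₁, hw₁, hne⟩, hsum⟩ := hY x hx
    have hn : (x.num.natAbs : ℝ) ≤ T := by exact_mod_cast (le_max_left _ _).trans hht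
    have hd : (x.den : ℝ) ≤ T := by exact_mod_cast (le_max_right _ _).trans hht
    have hheight : ∃ a c : 𝓞 ℚ, c ≠ 0 ∧ (∀ φ : ℚ →+* ℂ, ‖φ a‖ ≤ T ∧ ‖φ c‖ ≤ T) ∧ x = a / c := by
      refine ⟨(x.num : 𝓞 ℚ), (x.den : 𝓞 ℚ), ?_, fun φ => ⟨?_, ?_⟩, ?_⟩
      · exact_mod_cast x.den_ne_zero
      · have e1 : φ ((x.num : 𝓞 ℚ) : ℚ) = (x.num : ℂ) := by simp
        rw [e1, Complex.norm_intCast]
        rw [Nat.cast_natAbs] at hn
        exact_mod_cast hn
      · have e1 : φ ((x.den : 𝓞 ℚ) : ℚ) = (x.den : ℂ) := by simp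
        rw [e1, Complex.norm_natCast]
        exact hd
      · have e1 : (((x.num : 𝓞 ℚ) : ℚ)) = (x.num : ℚ) := by simp
        have e2 : (((x.den : 𝓞 ℚ) : ℚ)) = (x.den : ℚ) := by simp
        rw [e1, e2, Rat.num_div_den]
    have hinL : (algebraMap ℚ ℂ) x ∈ L := ⟨(x : ℝ), ⟨hx1, hx2⟩, by simp⟩
    set c' : List ℕ → (Fin g ⊕ (Fin r × W × Fin g)) → ℤ := fun w =>
      if w = [] then Sum.elim (fun i => - c₀ i) (fun q => if q.1 = j₁ then 0 else c q.1 q.2.1 q.2.2)
      else Sum.elim (fun i => c j₁ w i) (fun _ => 0) with hc'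
    have hTA : (0 : ℝ) ≤ (T : ℝ) ^ A := by positivity
    have hbd : ∀ w ∈ insert [] W, ∀ k, |((c' w k : ℤ) : ℝ)| ≤ (T : ℝ) ^ A := by
      intro w hw k
      by_cases hw0 : w = []
      · simp only [hc', if_pos hw0]
        rcases k with i | q
        · simp only [Sum.elim_inl, Int.cast_neg, abs_neg]
          exact hc₀ i
        · simp only [Sum.elim_inr]
          split_ifs
          · simp
          · exact hc _ _ q.2.1.2 _
      · simp only [hc', if_neg hw0]
        rcases k with i | q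
        · simp only [Sum.elim_inl]
          exact hc j₁ w ((Finset.mem_insert.1 hw).resolve_left hw0) i
        · simp
    have hcast : (algebraMap ℚ ℂ) x = (x : ℂ) := by simp
    have hcoef : ∀ w, ∑ k : Fin (Fintype.card (Fin g ⊕ (Fin r × W × Fin g))),
        ξ' ((Fintype.equivFin (Fin g ⊕ (Fin r × W × Fin g))).symm k) * (algebraMap ℚ ℂ)
          (((c' w ((Fintype.equivFin (Fin g ⊕ (Fin r × W × Fin g))).symm k) : 𝓞 ℚ)) : ℚ) =
        ∑ k, ξ' k * (c' w k : ℂ) := by
      intro w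
      rw [← Equiv.sum_comp (Fintype.equivFin (Fin g ⊕ (Fin r × W × Fin g))).symm
        (fun k => ξ' k * (c' w k : ℂ))]
      refine Finset.sum_congr rfl fun k _ => ?_
      congr 1
    have hm := hmem x hinL hheight hxX
      (fun w k => (c' w ((Fintype.equivFin (Fin g ⊕ (Fin r × W × Fin g))).symm k) : 𝓞 ℚ)) (by
      intro w hw k φ
      have e1 : φ (((c' w ((Fintype.equivFin (Fin g ⊕ (Fin r × W × Fin g))).symm k) : 𝓞 ℚ)) : ℚ) =
          (c' w ((Fintype.equivFin (Fin g ⊕ (Fin r × W × Fin g))).symm k) : ℂ) := by simp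
      rw [e1, Complex.norm_intCast, Real.rpow_natCast]
      exact hbd w hw _) w₁ (Finset.mem_insert_of_mem hw₁)
    simp only [hcoef, hcast] at hm
    have hpos : ∀ w, w ≠ [] → ∑ k, ξ' k * (c' w k : ℂ) = coef β (c j₁ w) := by
      intro w hw
      rw [Fintype.sum_sum_type]
      simp only [hc', if_neg hw, hξ', Sum.elim_inl, Sum.elim_inr, Int.cast_zero, mul_zero,
        Finset.sum_const_zero, add_zero]
      unfold coef
      exact Finset.sum_congr rfl fun i _ => mul_comm _ _
    have hnil : ∑ k, ξ' k * (c' [] k : ℂ) = - coef β c₀ +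
        ∑ j, (if j = j₁ then 0 else ∑ w ∈ W, coef β (c j w) * mhz w (v j)) := by
      rw [Fintype.sum_sum_type]
      congr 1
      · simp only [hc', if_true, hξ', Sum.elim_inl, Int.cast_neg]
        unfold coef
        rw [← Finset.sum_neg_distrib]
        exact Finset.sum_congr rfl fun i _ => by ring
      · rw [Fintype.sum_prod_type]
        refine Finset.sum_congr rfl fun j _ => ?_
        by_cases hj : j = j₁
        · simp only [hc', if_true, hξ', Sum.elim_inr, if_pos hj, Int.cast_zero, mul_zero,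
            Finset.sum_const_zero]
        · simp only [hc', if_true, hξ', Sum.elim_inr, if_neg hj]
          rw [Fintype.sum_prod_type, ← Finset.sum_coe_sort W]
          refine Finset.sum_congr rfl fun w _ => ?_
          unfold coef
          rw [Finset.sum_mul]
          exact Finset.sum_congr rfl fun i _ => by ring
    have hzero : ∑ s ∈ insert [] W, (∑ k, ξ' k * (c' s k : ℂ)) * Pool.Agent.X142.MZ.mhz s (x : ℂ) = 0 := by
      have hnot : ([] : List ℕ) ∉ W := fun h' => (hW _ h').2 rfl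
      rw [Finset.sum_insert hnot, hnil]
      have h1 : Pool.Agent.X142.MZ.mhz [] (x : ℂ) = 1 := rfl
      rw [h1, mul_one]
      have h2 : ∑ s ∈ W, (∑ k, ξ' k * (c' s k : ℂ)) * Pool.Agent.X142.MZ.mhz s (x : ℂ) =
          ∑ w ∈ W, coef β (c j₁ w) * mhz w (x : ℂ) := by
        refine Finset.sum_congr rfl fun w hw => ?_
        rw [hpos w (hW w hw).2, HurwitzArguments.mhz_eq]
      rw [h2]
      have h3 : ∑ j, ∑ w ∈ W, coef β (c j w) * mhz w ((if j = j₁ then x else v j : ℚ) : ℂ) =
          (∑ w ∈ W, coef β (c j₁ w) * mhz w (x : ℂ)) +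
          ∑ j, (if j = j₁ then 0 else ∑ w ∈ W, coef β (c j w) * mhz w (v j)) := by
        rw [← Finset.add_sum_erase _ _ (Finset.mem_univ j₁),
          ← Finset.add_sum_erase (a := j₁) (s := Finset.univ)
            (f := fun j => (if j = j₁ then 0 else ∑ w ∈ W, coef β (c j w) * mhz w (v j))) (Finset.mem_univ j₁)]
        rw [if_pos rfl, if_pos rfl, zero_add]
        congr 1
        refine Finset.sum_congr rfl fun j hj => ?_
        have hj' : j ≠ j₁ := Finset.ne_of_mem_erase hj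
        rw [if_neg hj', if_neg hj']
      rw [h3] at hsum
      linear_combination hsum
    rw [hzero, norm_zero, hpos w₁ (hW w₁ hw₁).2] at hm
    have h4 : 0 < (T : ℝ) ^ (-B) * ‖coef β (c j₁ w₁)‖ :=
      mul_pos (Real.rpow_pos_of_pos (by linarith) _) (norm_pos_iff.2 hne)
    linarith
  exact le_trans (by exact_mod_cast Finset.card_le_card hYX) hX

/-- **Large subsets.** Let `X` be a set of rational numbers in `[ρ, R]`, `ρ > 0`, which has at least `T ^ ε` elements of height
at most `T` for all `T` of an infinite set `𝒯`, where `ε > 0`. Let `f (T) ≤ T ^ η` for all `η > 0` and all large `T`, and let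
`K` be a countable set of complex numbers. Then `X` contains an infinite set `S` which has at least `f (T)` elements of
height at most `T` for all large `T` in `𝒯` and for which the following holds. For all finite sets `W` of admissible indices
`w ≠ ∅`, all `r`, all `β_1, …, β_g` in `K` and all `A` there are only finitely many `r`-tuples of different points
`t_1, …, t_r` of `S` which are related: `∑_j ∑_(w ∈ W) c_(j, w) ζ(w; t_j) = c_0` with coefficients of the form `∑_i k_i β_i`,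
`k_i` integers of absolute value at most `h ^ A`, where `h` is the largest of the heights of the `t_j`, such that for each
`j` some `c_(j, w)` is not zero. -/
theorem result (X : Set ℚ) (ρ R : ℝ) (hρ : 0 < ρ) (hXR : ∀ x ∈ X, ρ ≤ (x : ℝ) ∧ (x : ℝ) ≤ R)
    (ε : ℝ) (hε : 0 < ε) (𝒯 : Set ℕ) (h𝒯 : 𝒯.Infinite)
    (hX : ∀ T ∈ 𝒯, (T : ℝ) ^ ε ≤ ({x ∈ X | height x ≤ T}.ncard : ℝ))
    (f : ℕ → ℝ) (hf : ∀ η : ℝ, 0 < η → ∀ᶠ T : ℕ in atTop, f T ≤ (T : ℝ) ^ η)
    (K : Set ℂ) (hK : K.Countable) :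
    ∃ S : Set ℚ, S ⊆ X ∧ S.Infinite ∧
      (∀ᶠ T : ℕ in atTop, T ∈ 𝒯 → f T ≤ ({x ∈ S | height x ≤ T}.ncard : ℝ)) ∧
      ∀ W : Finset (List ℕ), (∀ w ∈ W, Adm w ∧ w ≠ []) → ∀ (r g : ℕ) (β : Fin g → ℂ), (∀ i, β i ∈ K) →
        ∀ A : ℕ, {t : Fin r → ℚ | Function.Injective t ∧ (∀ j, t j ∈ S) ∧
          Related W β (((Finset.univ.sup fun j => height (t j) : ℕ) : ℝ) ^ A) t}.Finite := by
  classical
  have : Countable K := hK.to_subtype
  let ι : Type := {W : Finset (List ℕ) // ∀ w ∈ W, Adm w ∧ w ≠ []} × ℕ × (Σ g : ℕ, Fin g → K) × ℕ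
  have : Nonempty ι := ⟨⟨∅, by simp⟩, 0, ⟨0, fun i => i.elim0⟩, 0⟩
  obtain ⟨H, s₀, t, hHm, hHt, hinj, ht, hcount, hE⟩ := Pool.Agent.H48.IG.large_gen (ι := ι) (fun a => a.2.1)
    (fun a T v x => Bad ρ R a.1.1 (fun i => (a.2.2.1.2 i : ℂ)) a.2.2.2 T v x) ε hε
    (fun a => bad_count ρ R hρ a.1.1 a.1.2 _ _ (ε / 4) (by positivity)) X 𝒯 h𝒯 hX f hf
  refine ⟨t '' Set.Ici s₀, ?_, (Set.Ici_infinite s₀).image hinj, hcount, ?_⟩
  · rintro _ ⟨s, hs, rfl⟩
    exact (ht s hs).1
  intro W hW r g β hβ A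
  obtain ⟨s₁, hs₁⟩ := hE (⟨W, hW⟩, r, ⟨g, fun i => ⟨β i, hβ i⟩⟩, A)
  refine ((Set.finite_Iic (fun _ : Fin r => s₁)).image (fun i j => t (i j))).subset ?_
  rintro τ ⟨hτinj, hτS, c, c₀, hc, hc₀, hne, hsum⟩
  choose i hi hiτ using hτS
  refine ⟨i, ?_, funext hiτ⟩
  rw [Set.mem_Iic]
  intro j₀
  by_contra hj₀
  push Not at hj₀
  obtain ⟨j₁, -, hj₁⟩ := Finset.exists_max_image Finset.univ i ⟨j₀, Finset.mem_univ _⟩
  have hle : ∀ j, i j ≤ i j₁ := fun j => hj₁ j (Finset.mem_univ j)
  have hs : s₁ < i j₁ := lt_of_lt_of_le hj₀ (hle j₀)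
  have hlt : ∀ j, j ≠ j₁ → i j < i j₁ := by
    intro j hj
    refine lt_of_le_of_ne (hle j) fun h => hj (hτinj ?_)
    rw [← hiτ j, ← hiτ j₁, h]
  have hNT : ((Finset.univ.sup fun j => height (τ j) : ℕ) : ℝ) ^ A ≤ (H (i j₁) : ℝ) ^ A := by
    refine pow_le_pow_left₀ (Nat.cast_nonneg _) ?_ _
    have h1 : (Finset.univ.sup fun j => height (τ j)) ≤ H (i j₁) := by
      refine Finset.sup_le fun j _ => ?_
      rw [← hiτ j]
      exact (ht (i j) (hi j)).2.trans (hHm (hle j))
    exact_mod_cast h1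
  refine hs₁ (i j₁) hs.le (fun j => if h : i j < i j₁ then ⟨i j, h⟩ else ⟨0, by omega⟩) ?_
  refine ⟨hXR _ (ht (i j₁) (hi j₁)).1, j₁, c, c₀, fun j w hw k => (hc j w hw k).trans hNT,
    fun k => (hc₀ k).trans hNT, hne j₁, ?_⟩
  rw [← hsum]
  refine Finset.sum_congr rfl fun j _ => Finset.sum_congr rfl fun w _ => ?_
  congr 2
  by_cases hj : j = j₁
  · rw [if_pos hj, hj, hiτ]
  · rw [if_neg hj]
    simp only [dif_pos (hlt j hj), hiτ]

end Pool.Agent.Results.MP_301213_nt.LargeSubsets
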