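import Pool.Agent.H8.TS.Fast
import Pool.Agent.H8.TS.Sharp
import Pool.Agent.H8.TS.Tup

/-!
# Hoffman's conjecture and sparse sets of integers

For a set `A` of positive integers let `mzv A l` be the multiple zeta value in which the summation
variables are restricted to `A`; the head of the list `l` is the exponent of the largest variable, as
in the frozen statements, so that `mzv univ l` is the multiple zeta value. We change the set of all
positive integers (or any set `B`) in a sparse set `D` of integers: `symmDiff B D`, for example
`B = univ` and `D` is removed from the summation.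

* If `D` is finite, nothing happens: the values of the words in `2`, `3` are linearly independent if
  and only if they are for `D = ∅`, which is Hoffman's conjecture together with the conjecture that
  there are no relations between different weights.
* If `D` is infinite and grows fast enough then the values of the words in `2`, `3`, and even the
  values of all words with letters `≥ 2`, are linearly independent over `ℚ`, and over any given
  countable field of coefficients.
* If `E = {e_0 < e_1 < …}` is a set with `liminf e_(j+1) / e_j > √2`, for example the set of the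
  powers of two, then the same is true for all but countably many subsets `D` of `E`.
* For all words with letters `≥ 2` finite sets `D` do not have the property, because of
  `3 ζ(4) = 4 ζ(2,2)`. So the exceptional set in the third item is infinite for `B = univ`, and the
  second item is not true for finite sets.
-/

set_option autoImplicit false

open Set Filter Topology

namespace Pool.Agent.Results.MP_301213_nt.SparseSets

/-- The multiple zeta value over the set `A`: the sum of `∏ m_i ^ (-l_i)` over all
`m_0 > m_1 > ... > 0` in `A`. -/
noncomputable def mzv (A : Set ℕ) (l : List ℕ) : ℝ :=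
  ∑' m : {m : Fin l.length → ℕ // StrictAnti m ∧ ∀ i, 0 < m i ∧ m i ∈ A},
    ∏ i, ((m.1 i : ℝ) ^ (l.get i))⁻¹

/-- The words with all letters at least two. -/
def BigWords : Set (List ℕ) := {l | ∀ a ∈ l, 2 ≤ a}

/-- The words in the letters two and three. -/
def HoffmanWords : Set (List ℕ) := {l | ∀ a ∈ l, a = 2 ∨ a = 3}

/-- The family of the values over `A` of all words in `W` is linearly independent over `K`. -/
def Independent (K : Subfield ℂ) (W : Set (List ℕ)) (A : Set ℕ) : Prop :=
  LinearIndependent K (fun l : W => (mzv A l.1 : ℂ))

theorem hoffman_sub : HoffmanWords ⊆ BigWords := by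
  intro l hl a ha
  rcases hl a ha with h | h <;> omega

theorem mzv_eq {l : List ℕ} (hl : l ∈ BigWords) (A : Set ℕ) : mzv A l = H8.TS.Z l A :=
  (H8.TS.mzv_eq l hl A).2

theorem indep_iff (K : Subfield ℂ) {W : Set (List ℕ)} (hW : W ⊆ BigWords) (A : Set ℕ) :
    Independent K W A ↔ LinearIndependent K (fun l : W => (H8.TS.Z l.1 A : ℂ)) := by
  unfold Independent
  have h : (fun l : W => (mzv A l.1 : ℂ)) = fun l : W => (H8.TS.Z l.1 A : ℂ) :=
    funext fun l => by rw [mzv_eq (hW l.2)]
  rw [h]

/-- **Multiple zeta values and sparse sets of integers.** Let `K` be a subfield of `ℂ` and `B` any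
set of natural numbers.
(1) Let `K` be countable and let `e` be a strictly increasing sequence of positive integers with
`e (j + 1) ≥ ρ * e j` for all large `j`, where `ρ > √2`. For all but countably many sets `J` the
values of all words with letters at least two over `symmDiff B {e j | j ∈ J}` are linearly
independent over `K`.
(2) Let `K` be countable. There is a function `φ` such that for all infinite sets `D` with
`φ d ≤ d'` for all elements `d < d'` of `D` these values are linearly independent over `symmDiff B D`.
(3) For finite sets `D` the values of the words in two and three over `symmDiff B D` are linearly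
independent over `K` if and only if those over `B` are.
(4) If the values of all words with letters at least two over a set `A` are linearly independent over
`K`, then the values of the words in two and three over `A` are, and no other value of a word with
letters at least two is in their span.
(5) Over sets `A` with finite complement the values of all words with letters at least two are
linearly dependent. -/
theorem result (K : Subfield ℂ) (B : Set ℕ) :
    (Countable K → ∀ e : ℕ → ℕ, StrictMono e → (∀ j, 0 < e j) → ∀ ρ : ℝ, √2 < ρ →
      (∀ᶠ j in atTop, ρ * e j ≤ e (j + 1)) →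
      {J : Set ℕ | ¬ Independent K BigWords (symmDiff B (e '' J))}.Countable) ∧
    (Countable K → ∃ φ : ℕ → ℕ, ∀ D : Set ℕ, D.Infinite →
      (∀ d ∈ D, ∀ d' ∈ D, d < d' → φ d ≤ d') → Independent K BigWords (symmDiff B D)) ∧
    (∀ D : Set ℕ, D.Finite →
      (Independent K HoffmanWords (symmDiff B D) ↔ Independent K HoffmanWords B)) ∧
    (∀ A : Set ℕ, Independent K BigWords A → Independent K HoffmanWords A ∧
      ∀ l ∈ BigWords, l ∉ HoffmanWords →
        (mzv A l : ℂ) ∉ Submodule.span K ((fun l => (mzv A l : ℂ)) '' HoffmanWords)) ∧
    ∀ A : Set ℕ, Aᶜ.Finite → ¬ Independent K BigWords A := by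
  refine ⟨?_, ?_, ?_, ?_, ?_⟩
  · intro hK e he he0 ρ hρ hev
    obtain ⟨J₀, hJ₀⟩ := eventually_atTop.1 hev
    have h2 : (2 : ℝ) < ρ ^ 2 := by
      have h3 : (0 : ℝ) ≤ √2 := Real.sqrt_nonneg 2
      have h4 : √2 ^ 2 = (2 : ℝ) := Real.sq_sqrt (by norm_num)
      nlinarith
    have h1 : (1 : ℝ) < ρ := by
      have h3 : (1 : ℝ) < √2 := by
        rw [Real.lt_sqrt (by norm_num)]
        norm_num
      linarith
    have hsp : H8.TS.Sparse e ρ J₀ := ⟨he, he0, h1, h2, hJ₀⟩
    refine (H8.TS.countable_dep B hsp K).mono fun J hJ => ?_
    intro h
    exact hJ ((indep_iff K Subset.rfl _).2 h)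
  · intro hK
    obtain ⟨φ, hφ⟩ := H8.TS.exists_fast_li K B
    exact ⟨φ, fun D hD hDφ => (indep_iff K Subset.rfl _).2 (hφ D hD hDφ)⟩
  · intro D hD
    rw [indep_iff K hoffman_sub, indep_iff K hoffman_sub]
    refine H8.TS.li_iff K (fun w hw => hoffman_sub hw)
      (fun w hw i a ha => hw a (List.mem_of_mem_take ha)) ?_
    refine hD.subset fun x hx => ?_
    simp only [mem_symmDiff] at hx
    tauto
  · intro A hA
    refine ⟨?_, ?_⟩
    · exact hA.comp (fun l : HoffmanWords => (⟨l.1, hoffman_sub l.2⟩ : BigWords))
        fun a b hab => Subtype.ext (congrArg (fun x : BigWords => x.1) hab)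
    · intro l hl hl'
      have h1 := hA.notMem_span_image (s := {x : BigWords | x.1 ∈ HoffmanWords})
        (x := (⟨l, hl⟩ : BigWords)) hl'
      have h2 : (fun l : BigWords => (mzv A l.1 : ℂ)) '' {x : BigWords | x.1 ∈ HoffmanWords} =
          (fun l => (mzv A l : ℂ)) '' HoffmanWords := by
        ext z
        constructor
        · rintro ⟨x, hx, rfl⟩
          exact ⟨x.1, hx, rfl⟩
        · rintro ⟨x, hx, rfl⟩
          exact ⟨⟨x, hoffman_sub hx⟩, hx, rfl⟩
      rw [h2] at h1
      exact h1
  · intro A hA h
    exact H8.TS.dependent K hA ((indep_iff K Subset.rfl A).1 h)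

end Pool.Agent.Results.MP_301213_nt.SparseSets
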