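import Pool.Graph.R_pool_sql_team_seeded_64922ed1.Results.MP_301213_nt.WeightsInWindows
import Pool.Agent.H48.GM.FewMoves

/-!
# Hoffman's basis conjecture and the game of the digits of the weight

We consider the multiple zeta values with one large argument, `ζ(q, k - |q| - |r|, r)` of weight `k` with `q` in a set `S`
of indices which contains the initial segments of its elements (for example the words in the letters `2`, `3`) and
`|q| + |r| ≤ W`; the first argument belongs to the largest summation variable. Relations are relations with integer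
coefficients of absolute value at most `C ^ k`.

Two players, Compass and Adversary, write down the weight `k = N + ∑_{j < L} x_j b ^ (π j)`, that is the digits `x_j < b`
of `k - N` in the base `b`, one after the other in any order `π` of the `L` places, `b ^ L ≤ N`. Adversary decides at
each step who makes the move. The number `m` of moves which Compass needs is bounded: `m` depends on `S` and `W` only, not
on `N`, `L`, `b`, `π` and not on the height `C`, and Compass plays one strategy (a rule `σ` that names a digit after every
finite sequence of digits) against all `C` with `N₁(C) ≤ N` at once.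

(1) If `S` has at most one element of each weight, for instance if it consists of the initial segments of an infinite word
such as `2, 2, 2, …` or of any infinite word in the letters `2`, `3`, then for every `W` Compass can make sure that there is
no relation at all between these values of the weight `k`.
(2) For all words in the letters `2`, `3` he can do so for `W = 4`.
(3) In general Compass can make sure that the relations between these values of the weight `k` span a space of dimension
`∑_{n ≤ W} 2 ^ (W - n) (#S_n - dim ⟨ζ(q) : q ∈ S_n⟩)`.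
(4) The values `ζ(q)`, `q ∈ S` of weight `n`, are linearly independent for all `n ≤ W` if and only if Compass can make sure
with a bounded number of moves that there is no relation in the weight `k`.

Proof. By the library (`HoffmanPrefixBasis`) the number of the exceptional weights in `[N, 2 N]` is bounded, uniformly
in `C`. Compass always names the digit after which the least number of exceptional weights remains possible.
-/

set_option autoImplicit false

namespace Pool.Agent.Results.MP_301213_nt.WeightGame

open HoffmanPrefixBasis (mzv PrefixClosed Hoffman level IsRelation relationSpace AlmostDimension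
  AlmostNoRelation IndependentUpTo)

/-- the number of the moves `j < L` at which the digit `x j` is the one named by the rule `σ` -/
def moves (σ : List ℕ → ℕ) (x : ℕ → ℕ) (L : ℕ) : ℕ :=
  ((Finset.range L).filter fun j => x j = σ ((List.range j).map x)).card

/-- the weight written down: `x j` is the digit at the place `π j` of `k - N` in the base `b` -/
def weight (b N L : ℕ) (π : Equiv.Perm (Fin L)) (x : ℕ → ℕ) : ℕ :=
  N + ∑ j : Fin L, x j * b ^ (π j : ℕ)

/-- Compass can make sure that `Good C k`: there are a number `m` of moves and thresholds `N₁ C` such that for all bases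
`b`, all `N ≥ b ^ L` and every order `π` of the places there is a rule `σ` such that the weight `k` satisfies `Good C k` for
all `C > 1` with `N₁ C ≤ N`, whenever at least `m` of the `L` digits are the ones named by the rule -/
def CompassWins (Good : ℝ → ℕ → Prop) : Prop :=
  ∃ (m : ℕ) (N₁ : ℝ → ℕ), ∀ b : ℕ, 2 ≤ b → ∀ N L : ℕ, b ^ L ≤ N → ∀ π : Equiv.Perm (Fin L),
    ∃ σ : List ℕ → ℕ, (∀ u, σ u < b) ∧ ∀ x : ℕ → ℕ, (∀ j, x j < b) → m ≤ moves σ x L →
      ∀ C : ℝ, 1 < C → N₁ C ≤ N → Good C (weight b N L π x)

theorem wins_dim {S : Set (List ℕ)} (hS : PrefixClosed S) (W D : ℕ) (h : AlmostDimension S W D) :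
    CompassWins fun C k => Module.finrank ℚ (relationSpace S W k (C ^ k)) = D := by
  obtain ⟨m, N₁, hm⟩ := Pool.Agent.H48.GM.few_moves_heights
    (fun C k => W < k ∧ Module.finrank ℚ (relationSpace S W k (C ^ k)) ≠ D) (by
      rintro c₁ C c₂ k h1 h2 h3 ⟨hk, h4⟩
      by_contra hcon
      push Not at hcon
      obtain ⟨h5, h6⟩ := hcon
      have h5 := h5 hk
      have h6 := h6 hk
      have h7 := WeightsInWindows.mono hS W k hk (pow_le_pow_left₀ (by linarith) h2 k : c₁ ^ k ≤ C ^ k)
      have h8 := WeightsInWindows.mono hS W k hk (pow_le_pow_left₀ (by linarith) h3 k : C ^ k ≤ c₂ ^ k)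
      exact h4 (by omega)) (by
      obtain ⟨K, hK⟩ := h 2
      refine ⟨K, fun C hC => ?_⟩
      obtain ⟨N0, hN0⟩ := hK C hC
      refine ⟨N0, fun N hN => ?_⟩
      refine (Set.ncard_le_ncard ?_ ((Set.finite_le_nat (2 * N)).subset fun k hk => hk.1.2)).trans (hN0 N hN)
      rintro k ⟨hk1, -, hk2⟩
      exact ⟨hk1, hk2⟩)
  refine ⟨m, fun C => N₁ C + W + 1, fun b hb N L hL π => ?_⟩
  obtain ⟨σ, hσb, hσ⟩ := hm b hb N L hL π
  refine ⟨σ, hσb, fun x hx hmov C hC hCN => ?_⟩
  have hCN : N₁ C + W + 1 ≤ N := hCN
  have h1 : N ≤ weight b N L π x := Nat.le_add_right _ _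
  by_contra hcon
  refine hσ x hx hmov C hC (by omega) ⟨?_, hcon⟩
  show W < weight b N L π x
  omega

theorem wins_zero_iff {S : Set (List ℕ)} (hS : PrefixClosed S) (W : ℕ) :
    (CompassWins fun C k => ∀ c, IsRelation S W k (C ^ k) c → c = 0) ↔
      CompassWins fun C k => Module.finrank ℚ (relationSpace S W k (C ^ k)) = 0 := by
  constructor
  · rintro ⟨m, N₁, h⟩
    refine ⟨m, fun C => N₁ C + W + 1, fun b hb N L hL π => ?_⟩
    obtain ⟨σ, hσb, hσ⟩ := h b hb N L hL π
    refine ⟨σ, hσb, fun x hx hmov C hC hCN => ?_⟩
    have hCN : N₁ C + W + 1 ≤ N := hCN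
    have h1 : N ≤ weight b N L π x := Nat.le_add_right _ _
    exact (WeightsInWindows.finrank_zero_iff hS W _ (by omega) _).2 (hσ x hx hmov C hC (by omega))
  · rintro ⟨m, N₁, h⟩
    refine ⟨m, fun C => N₁ C + W + 1, fun b hb N L hL π => ?_⟩
    obtain ⟨σ, hσb, hσ⟩ := h b hb N L hL π
    refine ⟨σ, hσb, fun x hx hmov C hC hCN => ?_⟩
    have hCN : N₁ C + W + 1 ≤ N := hCN
    have h1 : N ≤ weight b N L π x := Nat.le_add_right _ _
    exact (WeightsInWindows.finrank_zero_iff hS W _ (by omega) _).1 (hσ x hx hmov C hC (by omega))

/-- a play in which all moves are made by the rule `σ` -/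
def follow (σ : List ℕ → ℕ) : ℕ → List ℕ
  | 0 => []
  | n + 1 => follow σ n ++ [σ (follow σ n)]

theorem follow_eq (σ : List ℕ → ℕ) (n : ℕ) :
    (List.range n).map (fun j => σ (follow σ j)) = follow σ n := by
  induction n with
  | zero => rfl
  | succ n ih => rw [List.range_succ, List.map_append, ih]; rfl

theorem moves_follow (σ : List ℕ → ℕ) (L : ℕ) : moves σ (fun j => σ (follow σ j)) L = L := by
  unfold moves
  rw [Finset.filter_true_of_mem, Finset.card_range]
  intro j _
  rw [follow_eq]

/-- if Compass wins, there are weights in `[N, 2 N]` with the property -/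
theorem wins_exists {Good : ℝ → ℕ → Prop} (h : CompassWins Good) (C : ℝ) (hC : 1 < C) (N₀ : ℕ) :
    ∃ k, N₀ ≤ k ∧ Good C k := by
  obtain ⟨m, N₁, h⟩ := h
  obtain ⟨σ, hσb, hσ⟩ := h 2 le_rfl (N₀ + N₁ C + 2 ^ m) m (Nat.le_add_left _ _) (Equiv.refl _)
  refine ⟨_, ?_, hσ (fun j => σ (follow σ j)) (fun j => hσb _) (moves_follow σ m).ge C hC
    ((Nat.le_add_left _ _).trans (Nat.le_add_right _ _))⟩
  unfold weight
  exact ((Nat.le_add_right _ _).trans (Nat.le_add_right _ _)).trans (Nat.le_add_right _ _)

theorem unique_zero {S : Set (List ℕ)} (W D : ℕ) (h : AlmostDimension S W D)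
    (h0 : CompassWins fun C k => Module.finrank ℚ (relationSpace S W k (C ^ k)) = 0)
    (hD : CompassWins fun C k => Module.finrank ℚ (relationSpace S W k (C ^ k)) = D) : D = 0 := by
  obtain ⟨K, hK⟩ := h 2
  obtain ⟨N0, hN0⟩ := hK 2 one_lt_two
  obtain ⟨m, N₁, h0⟩ := h0
  by_contra hD0
  -- many plays with different weights
  set L := m + K + 1 with hL
  set N := N0 + N₁ 2 + 2 ^ L + 1 with hN
  have hNL : 2 ^ L ≤ N := by
    rw [hN]
    exact (Nat.le_add_left _ _).trans (Nat.le_add_right _ _)
  have hN1 : N₁ 2 ≤ N := by
    rw [hN]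
    exact ((Nat.le_add_left _ _).trans (Nat.le_add_right _ _)).trans (Nat.le_add_right _ _)
  have hN2 : N0 ≤ N := by
    rw [hN]
    exact ((Nat.le_add_right _ _).trans (Nat.le_add_right _ _)).trans (Nat.le_add_right _ _)
  obtain ⟨σ, hσb, hσ⟩ := h0 2 le_rfl N L hNL Fin.revPerm
  -- the digits: follow the rule in the first `m` moves, and then arbitrary digits
  let pl : Fin (K + 1) → ℕ → ℕ := fun i j => if j < m then σ (follow σ j) else if j = m + i then 1 else 0
  have hpl : ∀ i j, pl i j < 2 := by
    intro i j
    simp only [pl]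
    split_ifs
    · exact hσb _
    · norm_num
    · norm_num
  have hpre : ∀ i n, n ≤ m → (List.range n).map (pl i) = follow σ n := by
    intro i n hn
    rw [← follow_eq]
    apply List.map_congr_left
    intro j hj
    rw [List.mem_range] at hj
    simp only [pl]
    rw [if_pos (by omega)]
  have hmov : ∀ i, m ≤ moves σ (pl i) L := by
    intro i
    unfold moves
    calc m = (Finset.range m).card := (Finset.card_range m).symm
      _ ≤ _ := by
        apply Finset.card_le_card
        intro j hj
        rw [Finset.mem_range] at hj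
        rw [Finset.mem_filter, Finset.mem_range]
        refine ⟨by omega, ?_⟩
        rw [hpre i j hj.le]
        simp only [pl]
        rw [if_pos hj]
  have hgood : ∀ i, Module.finrank ℚ (relationSpace S W (weight 2 N L Fin.revPerm (pl i))
      ((2 : ℝ) ^ weight 2 N L Fin.revPerm (pl i))) = 0 :=
    fun i => hσ (pl i) (hpl i) (hmov i) 2 one_lt_two hN1
  have hinj : Function.Injective fun i => weight 2 N L Fin.revPerm (pl i) := by
    have hsum : ∀ i, weight 2 N L Fin.revPerm (pl i) = N + (finFunctionFinEquiv
        (fun j : Fin L => (⟨pl i (Fin.rev j : Fin L), hpl i _⟩ : Fin 2)) : ℕ) := by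
      intro i
      unfold weight
      rw [finFunctionFinEquiv_apply]
      congr 1
      rw [← Equiv.sum_comp Fin.revPerm]
      simp
    intro i i' hii
    have hii : weight 2 N L Fin.revPerm (pl i) = weight 2 N L Fin.revPerm (pl i') := hii
    rw [hsum, hsum] at hii
    have h1 := finFunctionFinEquiv.injective (Fin.ext (Nat.add_left_cancel hii))
    have hiL : m + (i : ℕ) < L := by omega
    have h2 := congrArg Fin.val (congrFun h1 (Fin.rev ⟨m + i, hiL⟩))
    have h3 : ∀ i'', (pl i'' (Fin.rev (Fin.rev (⟨m + i, hiL⟩ : Fin L)) : Fin L) : ℕ) =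
        if (i : ℕ) = (i'' : ℕ) then 1 else 0 := by
      intro i''
      rw [Fin.rev_rev]
      show (if m + (i : ℕ) < m then σ (follow σ (m + i)) else if m + (i : ℕ) = m + i'' then 1 else 0) = _
      rw [if_neg (by omega)]
      by_cases h4 : (i : ℕ) = i''
      · rw [if_pos (by omega), if_pos h4]
      · rw [if_neg (by omega), if_neg h4]
    have h4 : (if (i : ℕ) = (i : ℕ) then 1 else 0) = (if (i : ℕ) = (i' : ℕ) then 1 else 0) := by
      rw [← h3 i, ← h3 i']
      exact h2
    rw [if_pos rfl] at h4
    by_contra h5
    rw [if_neg (fun h6 => h5 (Fin.ext h6))] at h4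
    exact one_ne_zero h4
  have hlt : ∀ i, weight 2 N L Fin.revPerm (pl i) ≤ 2 * N := by
    intro i
    have hsum : weight 2 N L Fin.revPerm (pl i) = N + (finFunctionFinEquiv
        (fun j : Fin L => (⟨pl i (Fin.rev j : Fin L), hpl i _⟩ : Fin 2)) : ℕ) := by
      unfold weight
      rw [finFunctionFinEquiv_apply]
      congr 1
      rw [← Equiv.sum_comp Fin.revPerm]
      simp
    rw [hsum]
    have := (finFunctionFinEquiv (fun j : Fin L => (⟨pl i (Fin.rev j : Fin L), hpl i _⟩ : Fin 2))).isLt
    omega
  have hcard : K + 1 ≤ {k : ℕ | (N ≤ k ∧ k ≤ 2 * N) ∧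
      Module.finrank ℚ (relationSpace S W k ((2 : ℝ) ^ k)) ≠ D}.ncard := by
    calc K + 1 = (Set.range fun i => weight 2 N L Fin.revPerm (pl i)).ncard := by
          rw [← Set.image_univ, Set.ncard_image_of_injective _ hinj, Set.ncard_univ, Nat.card_eq_fintype_card,
            Fintype.card_fin]
      _ ≤ _ := by
          apply Set.ncard_le_ncard _ ((Set.finite_le_nat (2 * N)).subset fun k hk => hk.1.2)
          rintro _ ⟨i, rfl⟩
          refine ⟨⟨Nat.le_add_right _ _, hlt i⟩, ?_⟩
          show Module.finrank ℚ (relationSpace S W (weight 2 N L Fin.revPerm (pl i))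
            ((2 : ℝ) ^ weight 2 N L Fin.revPerm (pl i))) ≠ D
          rw [hgood i]
          exact fun h => hD0 h.symm
  have := hN0 N hN2
  omega

/-- the initial segments of the sequence `u` -/
def segments (u : ℕ → ℕ) : Set (List ℕ) := Set.range fun n => (List.range n).map u

theorem trunc_nonneg : ∀ (l : List ℕ) (m : ℕ), 0 ≤ HoffmanPrefixBasis.trunc l m := by
  intro l
  induction l with
  | nil => intro m; rw [HoffmanPrefixBasis.trunc]; exact zero_le_one
  | cons s l ih =>
    intro m
    rw [HoffmanPrefixBasis.trunc]
    exact Finset.sum_nonneg fun j _ => div_nonneg (ih j) (by positivity)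

theorem trunc_mono : ∀ (l : List ℕ) {m n : ℕ}, m ≤ n →
    HoffmanPrefixBasis.trunc l m ≤ HoffmanPrefixBasis.trunc l n := by
  intro l m n h
  cases l with
  | nil => rw [HoffmanPrefixBasis.trunc, HoffmanPrefixBasis.trunc]
  | cons s l =>
    rw [HoffmanPrefixBasis.trunc, HoffmanPrefixBasis.trunc]
    exact Finset.sum_le_sum_of_subset_of_nonneg (Finset.Ico_subset_Ico_right h)
      fun j _ _ => div_nonneg (trunc_nonneg l j) (by positivity)

theorem trunc_pos : ∀ l : List ℕ, 0 < HoffmanPrefixBasis.trunc l (l.length + 1) := by
  intro l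
  induction l with
  | nil => rw [HoffmanPrefixBasis.trunc]; exact zero_lt_one
  | cons s l ih =>
    rw [HoffmanPrefixBasis.trunc, List.length_cons]
    refine Finset.sum_pos' (fun j _ => div_nonneg (trunc_nonneg l j) (by positivity))
      ⟨l.length + 1, Finset.mem_Ico.2 ⟨by omega, by omega⟩, div_pos ih (by positivity)⟩

/-- multiple zeta values are positive -/
theorem mzv_pos {q : List ℕ} (hq : HoffmanPrefixBasis.Admissible q) : 0 < mzv q := by
  have h2 : Filter.Tendsto (fun N => HoffmanPrefixBasis.trunc q N) Filter.atTop (nhds (mzv q)) := by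
    rw [HoffmanPrefixBasis.mzv_eq]
    refine (Pool.Agent.X90.DC.tendsto_hr' ((HoffmanPrefixBasis.adm_iff q).1 hq)).congr fun N => ?_
    rw [HoffmanPrefixBasis.trunc_eq]
  exact (trunc_pos q).trans_le (ge_of_tendsto h2 (Filter.eventually_atTop.2
    ⟨q.length + 1, fun N hN => trunc_mono q hN⟩))

theorem independent_of_subsingleton {S : Set (List ℕ)} (hS : PrefixClosed S)
    (h1 : ∀ n, (level S n).Subsingleton) (W : ℕ) : IndependentUpTo S W := by
  intro n _
  haveI : Subsingleton (level S n) := (Set.subsingleton_coe _).2 (h1 n)
  rw [linearIndependent_subsingleton_index_iff]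
  intro q
  exact (mzv_pos (hS.1 _ q.2.1)).ne'

theorem segments_closed (u : ℕ → ℕ) (h0 : 2 ≤ u 0) (h1 : ∀ i, 1 ≤ u i) :
    PrefixClosed (segments u) ∧ ∀ n, (level (segments u) n).Subsingleton := by
  refine ⟨⟨?_, ?_⟩, ?_⟩
  · rintro _ ⟨n, rfl⟩
    cases n with
    | zero => trivial
    | succ n =>
      show HoffmanPrefixBasis.Admissible ((List.range (n + 1)).map u)
      rw [List.range_succ_eq_map, List.map_cons]
      refine ⟨h0, fun t ht => ?_⟩
      rw [List.map_map, List.mem_map] at ht
      obtain ⟨i, _, rfl⟩ := ht
      exact h1 _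
  · rintro _ ⟨n, rfl⟩ p hp
    refine ⟨p.length, ?_⟩
    have h2 : p = ((List.range n).map u).take p.length := List.prefix_iff_eq_take.1 hp
    have h3 : p.length ≤ n := by
      have := hp.length_le
      simpa using this
    show (List.range p.length).map u = p
    conv_rhs => rw [h2]
    rw [← List.map_take, List.take_range, min_eq_left h3]
  · intro n
    have hinj : ∀ i j, ((List.range i).map u).sum = ((List.range j).map u).sum → i = j := by
      have hmono : ∀ i d, ((List.range i).map u).sum + d ≤ ((List.range (i + d)).map u).sum := by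
        intro i d
        induction d with
        | zero => simp
        | succ d ih =>
          rw [show i + (d + 1) = (i + d) + 1 by ring, List.range_succ, List.map_append, List.sum_append]
          have := h1 (i + d)
          simp only [List.map_cons, List.map_nil, List.sum_cons, List.sum_nil]
          omega
      intro i j hij
      rcases Nat.lt_trichotomy i j with h | h | h
      · have := hmono i (j - i)
        rw [Nat.add_sub_cancel' h.le] at this
        omega
      · exact h
      · have := hmono j (i - j)
        rw [Nat.add_sub_cancel' h.le] at this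
        omega
    rintro _ ⟨⟨i, rfl⟩, hi⟩ _ ⟨⟨j, rfl⟩, hj⟩
    show (List.range i).map u = (List.range j).map u
    rw [hinj i j (hi.trans hj.symm)]

/-- **The weight game.** (1) Let `S` be a prefix closed set of admissible indices with at most one element of each weight.
For every `W` Compass can make sure, with a bounded number of moves, that there is no relation of height `C ^ k` except zero
between the values of weight `k` of the form `(q, a, r)`, `q ∈ S`, `a ≥ k - W`. (2) For instance `S` can be the set of the
initial segments of any sequence of positive integers whose first member is at least two. (3) He can do the same for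
all words in `2`, `3` and `W = 4`. For every prefix closed set `S` of admissible indices and all `W`: (4) with a bounded number
of moves Compass can make sure that the relations of height `C ^ k` between the values of weight `k` of the form `(q, a, r)`,
`q ∈ S`, `a ≥ k - W`, span a space of dimension `∑_{n ≤ W} 2 ^ (W - n) (#S_n - dim ⟨ζ(q) : q ∈ S_n⟩)`; (5) the values of
`S` of weight `n` are independent for all `n ≤ W` if and only if Compass can make sure, with a bounded number of moves, that
there is no such relation except zero. -/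
theorem result :
    (∀ S : Set (List ℕ), PrefixClosed S → (∀ n, (level S n).Subsingleton) → ∀ W : ℕ,
      CompassWins fun C k => ∀ c, IsRelation S W k (C ^ k) c → c = 0) ∧
    (∀ u : ℕ → ℕ, 2 ≤ u 0 → (∀ i, 1 ≤ u i) →
      PrefixClosed (segments u) ∧ ∀ n, (level (segments u) n).Subsingleton) ∧
    (PrefixClosed Hoffman ∧ CompassWins fun C k => ∀ c, IsRelation Hoffman 4 k (C ^ k) c → c = 0) ∧
    ∀ S : Set (List ℕ), PrefixClosed S → ∀ W : ℕ,
      (CompassWins fun C k => Module.finrank ℚ (relationSpace S W k (C ^ k)) =
        ∑ n ∈ Finset.range (W + 1), 2 ^ (W - n) *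
          ((level S n).ncard - Module.finrank ℚ (Submodule.span ℚ (mzv '' level S n)))) ∧
      (IndependentUpTo S W ↔ CompassWins fun C k => ∀ c, IsRelation S W k (C ^ k) c → c = 0) := by
  obtain ⟨h1, h2, h3, -⟩ := HoffmanPrefixBasis.result
  have h5 : ∀ S : Set (List ℕ), PrefixClosed S → ∀ W : ℕ,
      (CompassWins fun C k => Module.finrank ℚ (relationSpace S W k (C ^ k)) =
        ∑ n ∈ Finset.range (W + 1), 2 ^ (W - n) *
          ((level S n).ncard - Module.finrank ℚ (Submodule.span ℚ (mzv '' level S n)))) ∧
      (IndependentUpTo S W ↔ CompassWins fun C k => ∀ c, IsRelation S W k (C ^ k) c → c = 0) := by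
    refine fun S hS W => ⟨wins_dim hS W _ (h1 S hS W).1, ?_⟩
    rw [(h1 S hS W).2.1, wins_zero_iff hS, WeightsInWindows.almostNo_iff hS]
    constructor
    · exact fun h => wins_dim hS W 0 h
    · intro h
      have h4 := unique_zero W _ (h1 S hS W).1 h (wins_dim hS W _ (h1 S hS W).1)
      rw [← h4]
      exact (h1 S hS W).1
  refine ⟨fun S hS hs W => (h5 S hS W).2.1 (independent_of_subsingleton hS hs W),
    segments_closed, ⟨h2, ?_⟩, h5⟩
  rw [wins_zero_iff h2]
  exact wins_dim h2 4 0 ((WeightsInWindows.almostNo_iff h2 4).1 h3)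

end Pool.Agent.Results.MP_301213_nt.WeightGame
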